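import Mathlib

set_option autoImplicit false

namespace Pool.Agent.H.MP_50682e_co

open SimpleGraph

def HasCyc {V : Type} (G : SimpleGraph V) (r : ℕ) : Prop :=
  ∃ (v : V) (c : G.Walk v v), c.IsCycle ∧ 4 ≤ c.length ∧ c.length ≤ r

def Sat {V : Type} (G : SimpleGraph V) (r : ℕ) : Prop :=
  ¬ HasCyc G r ∧ ∀ x y, x ≠ y → ¬ G.Adj x y → HasCyc (G ⊔ edge x y) r

noncomputable def sat (n r : ℕ) : ℕ :=
  sInf {k | ∃ G : SimpleGraph (Fin n), Sat G r ∧ G.edgeSet.ncard = k}

theorem window {V : Type} (G : SimpleGraph V) (F : ℕ → V) (s : ℕ) (l : ℕ)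
    (ha : ∀ i, s ≤ i → i < s + l → G.Adj (F i) (F (i + 1)))
    (hi : ∀ i j, s ≤ i → i < j → j ≤ s + l → F i ≠ F j) :
    ∃ p : G.Walk (F (s + l)) (F s), p.IsPath ∧ p.length = l ∧
      ∀ x ∈ p.support, ∃ i, s ≤ i ∧ i ≤ s + l ∧ x = F i := by
  induction l with
  | zero => exact ⟨.nil, by simp, rfl, fun x hx => ⟨s, le_rfl, le_rfl, by simpa using hx⟩⟩
  | succ l ih =>
    obtain ⟨p, p1, p2, p3⟩ := ih (fun i a b => ha i a (by omega))
      (fun i j a b c => hi i j a b (by omega))
    refine ⟨.cons (ha (s + l) (by omega) (by omega)).symm p, ?_, by simp [p2], ?_⟩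
    · rw [Walk.cons_isPath_iff]
      refine ⟨p1, fun h => ?_⟩
      obtain ⟨i, a, b, c⟩ := p3 _ h
      exact hi i (s + l + 1) a (by omega) (by omega) c.symm
    · intro x hx
      rw [Walk.support_cons, List.mem_cons] at hx
      rcases hx with rfl | hx
      · exact ⟨s + l + 1, by omega, by omega, rfl⟩
      · obtain ⟨i, a, b, c⟩ := p3 _ hx
        exact ⟨i, a, by omega, c⟩

theorem close {V : Type} (G : SimpleGraph V) (r : ℕ) {x y : V} (hne : x ≠ y) (hn : ¬ G.Adj x y)
    (p : G.Walk x y) (hp : p.IsPath) (h1 : 3 ≤ p.length) (h2 : p.length + 1 ≤ r) :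
    HasCyc (G ⊔ edge x y) r := by
  have ha : (G ⊔ edge x y).Adj y x := Or.inr (by simp [edge_adj, hne.symm])
  have hle : G ≤ G ⊔ edge x y := le_sup_left
  refine ⟨y, .cons ha (p.mapLe hle), ?_, by simp; omega, by simp; omega⟩
  rw [Walk.cons_isCycle_iff]
  refine ⟨hp.mapLe hle, fun h => hn ?_⟩
  rw [Walk.edges_mapLe_eq_edges] at h
  exact (p.adj_of_mem_edges h).symm

section theta
variable {V : Type} {m t : ℕ} (pos : Fin m → ℕ → V)

def theta (t : ℕ) : SimpleGraph V :=
  fromEdgeSet {e | ∃ i h, h < t ∧ e = s(pos i h, pos i (h + 1))}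

variable (hinj : ∀ i j h k, h ≤ t → k ≤ t → (pos i h = pos j k ↔ h = k ∧ (h = 0 ∨ h = t ∨ i = j)))
include hinj

theorem adj_iff (u v : V) : (theta pos t).Adj u v ↔
    ∃ i h, h < t ∧ ((u = pos i h ∧ v = pos i (h + 1)) ∨ (v = pos i h ∧ u = pos i (h + 1))) := by
  rw [theta, fromEdgeSet_adj]
  constructor
  · rintro ⟨⟨i, h, a, b⟩, -⟩
    rw [Sym2.eq_iff] at b
    exact ⟨i, h, a, by tauto⟩
  · rintro ⟨i, h, a, b⟩
    have : pos i h ≠ pos i (h + 1) := fun e => by
      have := (hinj i i h (h + 1) (by omega) (by omega)).1 e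
      omega
    rcases b with ⟨rfl, rfl⟩ | ⟨rfl, rfl⟩
    · exact ⟨⟨i, h, a, rfl⟩, this⟩
    · exact ⟨⟨i, h, a, Sym2.eq_swap⟩, this.symm⟩

theorem theta_sat (hm : 2 ≤ m) (ht : 3 ≤ t) (hs : ∀ v, ∃ i h, h ≤ t ∧ v = pos i h) :
    Sat (theta pos t) (2 * t - 1) := by
  classical
  have adj := adj_iff pos hinj
  constructor
  · choose I H hH hv using hs
    have hHp : ∀ i h, h ≤ t → H (pos i h) = h := fun i h a =>
      ((hinj _ _ _ _ a (hH _)).1 (hv (pos i h))).1.symm
    have hlen : ∀ {x y : V} (p : (theta pos t).Walk x y),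
        H x ≤ H y + p.length ∧ H y ≤ H x + p.length := by
      intro x y p
      induction p with
      | nil => simp
      | cons h p ih =>
        obtain ⟨i, k, a, ⟨rfl, rfl⟩ | ⟨rfl, rfl⟩⟩ := (adj _ _).1 h <;>
        · rw [Walk.length_cons]
          rw [hHp _ _ (by omega)] at ih ⊢
          omega
    rintro ⟨v, c, hc, c1, c2⟩
    have two : ∀ u ∈ c.support, ∃ a b, a ≠ b ∧ a ∈ c.support ∧ b ∈ c.support ∧
        (theta pos t).Adj u a ∧ (theta pos t).Adj u b := by
      intro u hu
      obtain ⟨a, b, hab, e⟩ := Set.ncard_eq_two.1 (hc.ncard_neighborSet_toSubgraph_eq_two hu)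
      have ha : c.toSubgraph.Adj u a := by
        have : a ∈ c.toSubgraph.neighborSet u := by rw [e]; simp
        exact this
      have hb : c.toSubgraph.Adj u b := by
        have : b ∈ c.toSubgraph.neighborSet u := by rw [e]; simp
        exact this
      exact ⟨a, b, hab, c.mem_verts_toSubgraph.1 ha.snd_mem, c.mem_verts_toSubgraph.1 hb.snd_mem,
        ha.adj_sub, hb.adj_sub⟩
    obtain ⟨u, hu, hmax⟩ := Finset.exists_max_image c.support.toFinset H ⟨v, by simp⟩
    obtain ⟨w, hw, hmin⟩ := Finset.exists_min_image c.support.toFinset H ⟨v, by simp⟩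
    simp only [List.mem_toFinset] at hu hmax hw hmin
    have h1 : H u = t := by
      obtain ⟨a, b, hab, a1, b1, a2, b2⟩ := two u hu
      have a3 := hmax a a1
      have b3 := hmax b b1
      obtain ⟨i, h, i1, ⟨rfl, rfl⟩ | ⟨rfl, rfl⟩⟩ := (adj _ _).1 a2
      · rw [hHp _ _ (by omega), hHp _ _ (by omega)] at a3; omega
      obtain ⟨j, k, j1, ⟨e, rfl⟩ | ⟨rfl, e⟩⟩ := (adj _ _).1 b2
      · rw [e, hHp _ _ (by omega), hHp _ _ (by omega)] at b3; omega
      have x1 := (hinj _ _ _ _ (by omega) (by omega)).1 e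
      have x2 := (hinj i j h k (by omega) (by omega)).not.1 hab
      rw [hHp _ _ (by omega)]
      by_contra hc
      exact x2 ⟨by omega, Or.inr (Or.inr (by omega))⟩
    have h2 : H w = 0 := by
      obtain ⟨a, b, hab, a1, b1, a2, b2⟩ := two w hw
      have a3 := hmin a a1
      have b3 := hmin b b1
      obtain ⟨i, h, i1, ⟨rfl, rfl⟩ | ⟨rfl, rfl⟩⟩ := (adj _ _).1 a2
      swap
      · rw [hHp _ _ (by omega), hHp _ _ (by omega)] at a3; omega
      obtain ⟨j, k, j1, ⟨e, rfl⟩ | ⟨rfl, e⟩⟩ := (adj _ _).1 b2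
      swap
      · rw [e, hHp _ _ (by omega), hHp _ _ (by omega)] at b3; omega
      have x1 := (hinj _ _ _ _ (by omega) (by omega)).1 e
      have x2 := (hinj i j (h + 1) (k + 1) (by omega) (by omega)).not.1 hab
      rw [hHp _ _ (by omega)]
      by_contra hc
      exact x2 ⟨by omega, Or.inr (Or.inr (by omega))⟩
    have hw' : w ∈ (c.rotate u hu).support := (Walk.mem_support_rotate_iff _ _ _).2 hw
    have e := congrArg Walk.length ((c.rotate u hu).take_spec hw')
    rw [Walk.length_append, Walk.length_rotate] at e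
    have := hlen ((c.rotate u hu).takeUntil w hw')
    have := hlen ((c.rotate u hu).dropUntil w hw')
    omega
  · have win : ∀ (i j : Fin m), i ≠ j → ∀ s l, s + l ≤ 3 * t → l < 2 * t →
        let F : ℕ → V := fun s => if s ≤ t then pos i s else if s ≤ 2 * t then pos j (2 * t - s)
          else pos i (s - 2 * t)
        ∃ p : (theta pos t).Walk (F (s + l)) (F s), p.IsPath ∧ p.length = l := by
      intro i j hij s l h1 h2 F
      obtain ⟨p, p1, p2, -⟩ := window (theta pos t) F s l (by
        intro k a b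
        rw [adj]
        simp only [F]
        split_ifs with c1 c2 c3 c4 c5 c6 c7 c8
        · exact ⟨i, k, by omega, Or.inl ⟨rfl, rfl⟩⟩
        · refine ⟨j, t - 1, by omega, Or.inr ⟨?_, ?_⟩⟩ <;>
            exact (hinj _ _ _ _ (by omega) (by omega)).2 (by omega)
        · omega
        · omega
        · refine ⟨j, 2 * t - (k + 1), by omega, Or.inr ⟨rfl, ?_⟩⟩
          congr 1; omega
        · refine ⟨i, 0, by omega, Or.inl ⟨?_, ?_⟩⟩ <;>
            exact (hinj _ _ _ _ (by omega) (by omega)).2 (by omega)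
        · omega
        · omega
        · refine ⟨i, k - 2 * t, by omega, Or.inl ⟨rfl, ?_⟩⟩
          congr 1; omega) (by
        intro a b c d e
        simp only [F]
        have := hij.symm
        split_ifs <;>
        · intro f
          have := (hinj _ _ _ _ (by omega) (by omega)).1 f
          omega)
      exact ⟨p, p1, p2⟩
    have key : ∀ x y i j h k, x = pos i h → y = pos j k → h ≤ k → k ≤ t → x ≠ y →
        ¬ (theta pos t).Adj x y →
        ∃ p : (theta pos t).Walk x y, p.IsPath ∧ 3 ≤ p.length ∧ p.length + 2 ≤ 2 * t := by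
      intro x y i j h k hx hy hk kt hne hn
      have cp : ∀ {x' y' : V} (p : (theta pos t).Walk x' y'), x' = x → y' = y → p.IsPath →
          3 ≤ p.length → p.length + 2 ≤ 2 * t →
          ∃ p : (theta pos t).Walk x y, p.IsPath ∧ 3 ≤ p.length ∧ p.length + 2 ≤ 2 * t := by
        rintro _ _ p rfl rfl a b c
        exact ⟨p, a, b, c⟩
      by_cases same : h = 0 ∨ k = t ∨ i = j
      · obtain ⟨i', e1, e2⟩ : ∃ i', x = pos i' h ∧ y = pos i' k := by
          rcases same with e | e | e
          · exact ⟨j, hx.trans ((hinj _ _ _ _ (by omega) (by omega)).2 (by omega)), hy⟩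
          · exact ⟨i, hx, hy.trans ((hinj _ _ _ _ (by omega) (by omega)).2 (by omega))⟩
          · exact ⟨j, e ▸ hx, hy⟩
        have : Nontrivial (Fin m) := Fin.nontrivial_iff_two_le.2 hm
        obtain ⟨j', hj'⟩ := exists_ne i'
        have d1 : h ≠ k := fun e => hne (by rw [e1, e2, e])
        have d2 : k ≠ h + 1 := fun e => hn ((adj _ _).2 ⟨i', h, by omega, Or.inl ⟨e1, e ▸ e2⟩⟩)
        by_cases d3 : k = h + 2
        · obtain ⟨p, p1, p2⟩ := win i' j' hj'.symm k (2 * t - 2) (by omega) (by omega)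
          refine cp p ?_ ?_ p1 (by omega) (by omega)
          · beta_reduce
            rw [e1]
            split_ifs <;> exact (hinj _ _ _ _ (by omega) (by omega)).2 (by omega)
          · beta_reduce
            rw [e2, if_pos kt]
        · obtain ⟨p, p1, p2⟩ := win i' j' hj'.symm h (k - h) (by omega) (by omega)
          refine cp p.reverse ?_ ?_ p1.reverse (by simp; omega) (by simp; omega)
          · beta_reduce
            rw [e1, if_pos (by omega)]
          · beta_reduce
            rw [e2, if_pos (by omega)]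
            congr 1; omega
      · have hij : i ≠ j := fun e => same (Or.inr (Or.inr e))
        by_cases d : h + k = 2
        · obtain ⟨p, p1, p2⟩ := win i j hij h (2 * t - 2) (by omega) (by omega)
          refine cp p.reverse ?_ ?_ p1.reverse (by simp; omega) (by simp; omega)
          · beta_reduce
            rw [hx, if_pos (by omega)]
          · beta_reduce
            rw [hy, if_neg (by omega), if_pos (by omega)]
            congr 1; omega
        · obtain ⟨p, p1, p2⟩ := win i j hij (2 * t - k) (h + k) (by omega) (by omega)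
          refine cp p ?_ ?_ p1 (by omega) (by omega)
          · beta_reduce
            rw [hx, if_neg (by omega), if_neg (by omega)]
            congr 1; omega
          · beta_reduce
            rw [hy, if_neg (by omega), if_pos (by omega)]
            congr 1; omega
    intro x y hne hn
    obtain ⟨i, h, a, hx⟩ := hs x
    obtain ⟨j, k, b, hy⟩ := hs y
    rcases le_total h k with c | c
    · obtain ⟨p, p1, p2, p3⟩ := key x y i j h k hx hy c b hne hn
      exact close _ _ hne hn p p1 p2 (by omega)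
    · obtain ⟨p, p1, p2, p3⟩ := key y x j i k h hy hx c a hne.symm (fun e => hn e.symm)
      exact close _ _ hne hn p.reverse p1.reverse (by simpa using p2) (by simp; omega)

omit hinj in
theorem theta_edges : (theta pos t).edgeSet.ncard ≤ m * t := by
  have : (theta pos t).edgeSet ⊆ (fun q : Fin m × Fin t => s(pos q.1 q.2, pos q.1 (q.2 + 1))) ''
      Set.univ := by
    intro e he
    rw [theta, edgeSet_fromEdgeSet] at he
    obtain ⟨⟨i, h, a, rfl⟩, -⟩ := he
    exact ⟨(i, ⟨h, a⟩), trivial, rfl⟩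
  refine (Set.ncard_le_ncard this (Set.toFinite _)).trans ((Set.ncard_image_le).trans ?_)
  simp [Set.ncard_univ]

end theta

theorem main (m s : ℕ) (hm : 2 ≤ m) (hs : 2 ≤ s) :
    ∃ G : SimpleGraph (Fin (2 + m * s)), Sat G (2 * (s + 1) - 1) ∧
      G.edgeSet.ncard ≤ m * (s + 1) := by
  let W := Bool ⊕ (Fin m × Fin s)
  let e : W ≃ Fin (2 + m * s) := Fintype.equivFinOfCardEq (by simp [W])
  let p0 : Fin m → ℕ → W := fun i h =>
    if a : h = 0 then .inl false else if b : h ≤ s then .inr (i, ⟨h - 1, by omega⟩) else .inl true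
  refine ⟨theta (fun i h => e (p0 i h)) (s + 1), theta_sat _ ?_ hm (by omega) ?_, theta_edges _⟩
  · intro i j h k a b
    rw [e.apply_eq_iff_eq]
    simp only [p0, W]
    split_ifs <;> simp [Fin.ext_iff] <;> omega
  · intro v
    obtain ⟨w, rfl⟩ := e.surjective v
    rcases w with (_ | _) | ⟨i, h⟩
    · exact ⟨⟨0, by omega⟩, 0, by omega, by simp [p0]⟩
    · exact ⟨⟨0, by omega⟩, s + 1, by omega, by simp [p0]⟩
    · refine ⟨i, h + 1, by omega, ?_⟩
      have : h.val + 1 ≤ s := h.2
      simp [p0, this]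

end Pool.Agent.H.MP_50682e_co
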